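import Pool.Agent.COSB.StmtsB

/-!
# COSB, row LTE: the index is odd
-/

set_option autoImplicit false

namespace Pool.Agent.COSB.H51

open Pool.Agent.COSB

theorem two' : Prime (2 : ℤ) := Int.prime_two

/-- lifting the exponent, integer form -/
theorem em {q : ℕ} (hq : q % 4 = 1) (j : ℕ) :
    emultiplicity (2 : ℤ) ((q : ℤ) ^ j - 1) =
      emultiplicity (2 : ℤ) ((q : ℤ) - 1) + emultiplicity (2 : ℤ) (j : ℤ) := by
  have h := Int.two_pow_sub_pow' (x := (q : ℤ)) (y := 1) j (by omega) (by omega)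
  rw [one_pow] at h
  exact h

theorem em0 {q : ℕ} (hq : q % 4 = 1) (i : ℕ) : emultiplicity (2 : ℤ) ((q : ℤ) ^ i) = 0 := by
  rw [emultiplicity_eq_zero]
  intro h
  have h1 := two'.dvd_of_dvd_pow h
  omega

/-- the product over `j` -/
theorem emE {q : ℕ} (hq : q % 4 = 1) : ∀ n : ℕ,
    emultiplicity (2 : ℤ) (∏ j ∈ Finset.range n, ((q : ℤ) ^ (j + 1) - 1)) =
      emultiplicity (2 : ℤ) ((n.factorial : ℤ) * ((q : ℤ) - 1) ^ n)
  | 0 => by simp
  | n + 1 => by
    rw [Finset.prod_range_succ, emultiplicity_mul two', emE hq n, em hq (n + 1)]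
    have e : (((n + 1).factorial : ℕ) : ℤ) * ((q : ℤ) - 1) ^ (n + 1) =
        ((n.factorial : ℤ) * ((q : ℤ) - 1) ^ n) * ((q - 1) * ((n + 1 : ℕ) : ℤ)) := by
      rw [Nat.factorial_succ]
      push_cast
      ring
    rw [e, emultiplicity_mul two' (a := (n.factorial : ℤ) * ((q : ℤ) - 1) ^ n),
      emultiplicity_mul two' (a := (q : ℤ) - 1)]

theorem emP {q : ℕ} (hq : q % 4 = 1) (n : ℕ) :
    emultiplicity (2 : ℤ) (∏ i ∈ Finset.range n, ((q : ℤ) ^ n - (q : ℤ) ^ i)) =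
      emultiplicity (2 : ℤ) ((n.factorial : ℤ) * ((q : ℤ) - 1) ^ n) := by
  rw [← emE hq n, Finset.emultiplicity_prod two', Finset.emultiplicity_prod two',
    ← Finset.sum_range_reflect (fun j => emultiplicity (2 : ℤ) ((q : ℤ) ^ (j + 1) - 1)) n]
  refine Finset.sum_congr rfl fun i hi => ?_
  have hi' : i < n := Finset.mem_range.1 hi
  have e : (q : ℤ) ^ n - (q : ℤ) ^ i = (q : ℤ) ^ i * ((q : ℤ) ^ (n - 1 - i + 1) - 1) := by
    rw [mul_sub, mul_one, ← pow_add, show i + (n - 1 - i + 1) = n by omega]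
  rw [e, emultiplicity_mul two', em0 hq, zero_add]

/-- **LTE**. -/
theorem lte : LteStmt := by
  intro q n a hq h1 h
  have hZ : (∏ i ∈ Finset.range n, ((q : ℤ) ^ n - (q : ℤ) ^ i)) =
      ((n.factorial : ℤ) * ((q : ℤ) - 1) ^ n) * (a : ℤ) := by
    have h2 : ((∏ i : Fin n, (q ^ n - q ^ (i : ℕ)) : ℕ) : ℤ) =
        (((n.factorial * (q - 1) ^ n) * a : ℕ) : ℤ) := by rw [h]
    rw [← Fin.prod_univ_eq_prod_range (fun i => (q : ℤ) ^ n - (q : ℤ) ^ i) n]
    rw [Nat.cast_prod, Nat.cast_mul, Nat.cast_mul, Nat.cast_pow, Nat.cast_sub h1.le,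
      Nat.cast_one] at h2
    rw [← h2]
    refine Finset.prod_congr rfl fun i _ => ?_
    rw [Nat.cast_sub (Nat.pow_le_pow_right (by omega) i.2.le), Nat.cast_pow, Nat.cast_pow]
  have hne : (n.factorial : ℤ) * ((q : ℤ) - 1) ^ n ≠ 0 := by
    refine mul_ne_zero (by exact_mod_cast n.factorial_ne_zero) (pow_ne_zero _ ?_)
    omega
  have hfin : FiniteMultiplicity (2 : ℤ) ((n.factorial : ℤ) * ((q : ℤ) - 1) ^ n) :=
    Int.finiteMultiplicity_iff.2 ⟨by norm_num, hne⟩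
  have h3 := emP hq n
  rw [hZ, emultiplicity_mul two'] at h3
  have h4 : emultiplicity (2 : ℤ) (a : ℤ) = 0 := by
    have hft := finiteMultiplicity_iff_emultiplicity_ne_top.1 hfin
    have h5 : emultiplicity (2 : ℤ) ((n.factorial : ℤ) * ((q : ℤ) - 1) ^ n) +
        emultiplicity (2 : ℤ) (a : ℤ) =
        emultiplicity (2 : ℤ) ((n.factorial : ℤ) * ((q : ℤ) - 1) ^ n) + 0 := by
      rw [h3, add_zero]
    exact ENat.add_right_injective_of_ne_top hft h5
  rw [emultiplicity_eq_zero] at h4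
  rw [← Nat.not_even_iff_odd, even_iff_two_dvd]
  intro h5
  exact h4 (by exact_mod_cast h5)

end Pool.Agent.COSB.H51
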